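import Mathlib

namespace Pool.Agent.Results.MP_557f7f_co.Q1

open Polynomial Matrix

/-- `B` is a realization of the sign pattern `A`. -/
def Realizes {n : ℕ} (B : Matrix (Fin n) (Fin n) ℝ) (A : Matrix (Fin n) (Fin n) SignType) : Prop :=
  ∀ i j, SignType.sign (B i j) = A i j

/-- Spectrally arbitrary sign pattern. -/
def SAP {n : ℕ} (A : Matrix (Fin n) (Fin n) SignType) : Prop :=
  ∀ p : ℝ[X], p.Monic → p.natDegree = n →
    ∃ B : Matrix (Fin n) (Fin n) ℝ, Realizes B A ∧ B.charpoly = p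

def M (a b c d e f g h i k p q r s : ℝ) : Matrix (Fin 6) (Fin 6) ℝ :=
  !![a, b, -c, k, 0, 0;
     -d, -e, f, 0, 0, 0;
     0, 0, 0, -g, 0, 0;
     h, i, 0, 0, 0, 0;
     0, 0, 0, 0, p, q;
     0, 0, 0, 0, -r, -s]

theorem eval_M (a b c d e f g h i k p q r s x : ℝ) :
    (M a b c d e f g h i k p q r s).charpoly.eval x =
      (x ^ 4 - (a - e) * x ^ 3 + (b * d - a * e - k * h) * x ^ 2
        - (k * (e * h - d * i) + g * (c * h - f * i)) * x
        + g * (b * f * h + c * d * i - c * e * h - a * f * i)) *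
      (x ^ 2 - (p - s) * x + (q * r - p * s)) := by
  rw [Matrix.eval_charpoly]
  have : Matrix.scalar (Fin 6) x - M a b c d e f g h i k p q r s =
    !![x - a, -b, c, -k, 0, 0;
     d, x + e, -f, 0, 0, 0;
     0, 0, x, g, 0, 0;
     -h, -i, 0, x, 0, 0;
     0, 0, 0, 0, x - p, -q;
     0, 0, 0, 0, r, x + s] := by
    ext u v
    fin_cases u <;> fin_cases v <;> simp [M]
  rw [this]
  simp [Matrix.det_succ_row_zero, Fin.sum_univ_succ, Fin.succAbove]
  ring

def A (k : SignType) : Matrix (Fin 6) (Fin 6) SignType :=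
  !![1, 1, -1, k, 0, 0;
     -1, -1, 1, 0, 0, 0;
     0, 0, 0, -1, 0, 0;
     1, 1, 0, 0, 0, 0;
     0, 0, 0, 0, 1, 1;
     0, 0, 0, 0, -1, -1]

theorem core (E1 E2 E3 E4 : ℝ) (H : 0 < E4 ∨ (E4 = 0 ∧ (E3 ≠ 0 ∨ 4 * E2 ≤ E1 ^ 2))) :
    ∃ a b c d e f : ℝ, 0 < a ∧ 0 < b ∧ 0 < c ∧ 0 < d ∧ 0 < e ∧ 0 < f ∧ a - e = E1 ∧
      b * d - a * e = E2 ∧ c - f = E3 ∧ b * f + c * d - c * e - a * f = E4 := by
  have hT : ∀ Z : ℝ, ∃ T, |E1| + 1 < T ∧ |E2| < T ∧ Z < T := fun Z =>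
    ⟨|E1| + 1 + |E2| + |Z| + 1, by linarith [abs_nonneg E2, abs_nonneg Z],
      by linarith [abs_nonneg E1, abs_nonneg Z],
      by linarith [abs_nonneg E1, abs_nonneg E2, le_abs_self Z]⟩
  set v : ℝ := 1 + |E3| with hv
  set u : ℝ := v + E3 with hu
  have hv0 : 0 < v := by positivity
  have hu0 : 0 < u := by linarith [neg_abs_le E3]
  have hE4 : 0 ≤ E4 := by rcases H with h | h; exacts [h.le, h.1.ge]
  obtain ⟨e, h1, h2, h3⟩ : ∃ e, |E1| + 1 < e ∧ |E2| < e ∧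
      4 * u * v * E2 ≤ E4 ^ 2 + 2 * E4 * (e * u + (e + E1) * v) + (e * u - (e + E1) * v) ^ 2 := by
    rcases H with h | ⟨h, h' | h'⟩
    · obtain ⟨e, h1, h2, h3⟩ := hT (2 * v * |E2| / E4)
      refine ⟨e, h1, h2, ?_⟩
      rw [div_lt_iff₀ h] at h3
      have h4 : 0 < (e + E1) * v := mul_pos (by linarith [neg_abs_le E1]) hv0
      have h5 : u * (2 * v * E2) ≤ u * (e * E4) := by
        apply mul_le_mul_of_nonneg_left _ hu0.le
        have : v * E2 ≤ v * |E2| := mul_le_mul_of_nonneg_left (le_abs_self _) hv0.le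
        linarith
      nlinarith [sq_nonneg E4, sq_nonneg (e * u - (e + E1) * v), mul_pos h h4]
    · have h0 : 0 < |E3| := abs_pos.2 h'
      obtain ⟨e, h1, h2, h3⟩ := hT ((1 + 4 * u * v * |E2| + |E1| * v) / |E3|)
      refine ⟨e, h1, h2, ?_⟩
      rw [div_lt_iff₀ h0] at h3
      have he : 0 < e := by linarith [abs_nonneg E1]
      have h4 : e * u - (e + E1) * v = e * E3 - E1 * v := by rw [hu]; ring
      have h5 : e * |E3| - |E1| * v ≤ |e * E3 - E1 * v| := by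
        have := abs_sub_abs_le_abs_sub (e * E3) (E1 * v)
        rwa [abs_mul, abs_mul, abs_of_pos he, abs_of_pos hv0] at this
      have h6 : 4 * u * v * E2 ≤ 4 * u * v * |E2| :=
        mul_le_mul_of_nonneg_left (le_abs_self _) (by positivity)
      have h7 : 0 ≤ 4 * u * v * |E2| := by positivity
      rw [h, h4, ← sq_abs (e * E3 - E1 * v)]
      nlinarith
    · by_cases h3 : E3 = 0
      · obtain ⟨e, h1, h2, -⟩ := hT 0
        refine ⟨e, h1, h2, ?_⟩
        have : u = v := by rw [hu, h3, add_zero]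
        rw [h, this]
        nlinarith [mul_le_mul_of_nonneg_left h' (sq_nonneg v)]
      · have h0 : 0 < |E3| := abs_pos.2 h3
        obtain ⟨e, h1, h2, h3⟩ := hT ((1 + 4 * u * v * |E2| + |E1| * v) / |E3|)
        refine ⟨e, h1, h2, ?_⟩
        rw [div_lt_iff₀ h0] at h3
        have he : 0 < e := by linarith [abs_nonneg E1]
        have h4 : e * u - (e + E1) * v = e * E3 - E1 * v := by rw [hu]; ring
        have h5 : e * |E3| - |E1| * v ≤ |e * E3 - E1 * v| := by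
          have := abs_sub_abs_le_abs_sub (e * E3) (E1 * v)
          rwa [abs_mul, abs_mul, abs_of_pos he, abs_of_pos hv0] at this
        have h6 : 4 * u * v * E2 ≤ 4 * u * v * |E2| :=
          mul_le_mul_of_nonneg_left (le_abs_self _) (by positivity)
        have h7 : 0 ≤ 4 * u * v * |E2| := by positivity
        rw [h, h4, ← sq_abs (e * E3 - E1 * v)]
        nlinarith
  set a := e + E1 with ha
  have he : 0 < e := by linarith [abs_nonneg E1]
  have ha1 : 1 < a := by linarith [neg_abs_le E1]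
  have ha0 : 0 < a := by linarith
  set w := E2 + a * e with hw
  have hw0 : 0 < w := by nlinarith [neg_abs_le E2]
  set S := E4 + e * u + a * v with hS
  have hS0 : 0 < S := by positivity
  have hD : 0 ≤ S ^ 2 - 4 * u * v * w := by rw [hS, hw]; nlinarith
  set R := Real.sqrt (S ^ 2 - 4 * u * v * w) with hR
  have hR0 : 0 ≤ R := Real.sqrt_nonneg _
  have hR2 : R ^ 2 = S ^ 2 - 4 * u * v * w := Real.sq_sqrt hD
  have hb : 0 < S + R := by linarith
  refine ⟨a, (S + R) / (2 * v), u, w * (2 * v) / (S + R), e, v, ha0, by positivity, hu0,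
    by positivity, he, hv0, by rw [ha]; ring, ?_, by rw [hu]; ring, ?_⟩
  · have : (S + R) / (2 * v) * (w * (2 * v) / (S + R)) = w := by field_simp
    rw [this, hw]; ring
  · have : (S + R) / (2 * v) * v + u * (w * (2 * v) / (S + R)) = S := by
      field_simp
      nlinarith
    linarith

theorem pair (s1 c1 s2 c2 s3 c3 : ℝ) (H : 0 < c1 * c2 ∨ (c1 = 0 ∧ c2 ≤ 0)) :
    ∃ B, Realizes B (A 0) ∧ B.charpoly =
      (X ^ 2 + C s1 * X + C c1) * (X ^ 2 + C s2 * X + C c2) * (X ^ 2 + C s3 * X + C c3) := by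
  obtain ⟨a, b, c, d, e, f, ha, hb, hc, hd, he, hf, e1, e2, e3, e4⟩ :=
    core (-(s1 + s2)) (c1 + c2 + s1 * s2) (-(s1 * c2 + s2 * c1)) (c1 * c2) (by
      rcases H with h | ⟨h, h'⟩
      · exact Or.inl h
      · refine Or.inr ⟨by rw [h, zero_mul], Or.inr ?_⟩
        rw [h]
        nlinarith [sq_nonneg (s1 - s2)])
  set s : ℝ := |s3| + |c3| + 1 with hs
  have hs0 : 0 < s := by positivity
  have hp : |c3| + 1 ≤ s - s3 := by linarith [le_abs_self s3]
  have hs1 : 1 ≤ s := by linarith [abs_nonneg s3, abs_nonneg c3]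
  have hp0 : 0 < s - s3 := by linarith [abs_nonneg c3]
  have hr : 0 < c3 + (s - s3) * s := by nlinarith [neg_abs_le c3]
  refine ⟨M a b c d e f 1 1 1 0 (s - s3) 1 (c3 + (s - s3) * s) s, ?_, ?_⟩
  · generalize c3 + (s - s3) * s = r at hr
    generalize s - s3 = t at hp0
    intro u v
    fin_cases u <;> fin_cases v <;>
      simp [M, A, sign_pos, ha, hb, hc, hd, he, hf, hs0, hp0, hr]
  · apply Polynomial.funext
    intro x
    rw [eval_M]
    simp only [eval_mul, eval_add, eval_pow, eval_X, eval_C, zero_mul, sub_zero, mul_one,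
      one_mul, zero_add, e1, e2, e3, e4]
    ring

theorem sap : SAP (A 0) := by
  intro p hm hd
  have hp : IsMonicOfDegree p (4 + 2) := ⟨hd, hm⟩
  obtain ⟨q1, p1, hq1, hp1, rfl⟩ := hp.eq_isMonicOfDegree_two_mul_isMonicOfDegree
  obtain ⟨q2, q3, hq2, hq3, rfl⟩ :=
    IsMonicOfDegree.eq_isMonicOfDegree_two_mul_isMonicOfDegree (n := 2) hp1
  obtain ⟨s1, c1, rfl⟩ := isMonicOfDegree_two_iff.1 hq1
  obtain ⟨s2, c2, rfl⟩ := isMonicOfDegree_two_iff.1 hq2
  obtain ⟨s3, c3, rfl⟩ := isMonicOfDegree_two_iff.1 hq3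
  have key : (0 < c1 * c2 ∨ (c1 = 0 ∧ c2 ≤ 0)) ∨ (0 < c2 * c1 ∨ (c2 = 0 ∧ c1 ≤ 0)) ∨
      (0 < c1 * c3 ∨ (c1 = 0 ∧ c3 ≤ 0)) ∨ (0 < c3 * c1 ∨ (c3 = 0 ∧ c1 ≤ 0)) ∨
      (0 < c2 * c3 ∨ (c2 = 0 ∧ c3 ≤ 0)) ∨ (0 < c3 * c2 ∨ (c3 = 0 ∧ c2 ≤ 0)) := by
    rcases lt_trichotomy c1 0 with h1 | h1 | h1 <;> rcases lt_trichotomy c2 0 with h2 | h2 | h2 <;>
      rcases lt_trichotomy c3 0 with h3 | h3 | h3 <;>
      simp [h1, h2, h3, mul_pos, mul_pos_of_neg_of_neg, le_of_lt]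
  rcases key with h | h | h | h | h | h
  · obtain ⟨B, h1, h2⟩ := pair s1 c1 s2 c2 s3 c3 h; exact ⟨B, h1, by rw [h2]; ring⟩
  · obtain ⟨B, h1, h2⟩ := pair s2 c2 s1 c1 s3 c3 h; exact ⟨B, h1, by rw [h2]; ring⟩
  · obtain ⟨B, h1, h2⟩ := pair s1 c1 s3 c3 s2 c2 h; exact ⟨B, h1, by rw [h2]; ring⟩
  · obtain ⟨B, h1, h2⟩ := pair s3 c3 s1 c1 s2 c2 h; exact ⟨B, h1, by rw [h2]; ring⟩
  · obtain ⟨B, h1, h2⟩ := pair s2 c2 s3 c3 s1 c1 h; exact ⟨B, h1, by rw [h2]; ring⟩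
  · obtain ⟨B, h1, h2⟩ := pair s3 c3 s2 c2 s1 c1 h; exact ⟨B, h1, by rw [h2]; ring⟩

theorem not_nil (a b c d e f g h i k : ℝ) (ha : 0 < a) (hb : 0 < b) (hc : 0 < c) (hd : 0 < d)
    (hf : 0 < f) (hg : 0 < g) (hh : 0 < h) (hi : 0 < i) (hk : 0 < k)
    (e1 : a - e = 0) (e2 : b * d - a * e - k * h = 0)
    (e3 : k * (e * h - d * i) + g * (c * h - f * i) = 0)
    (e4 : g * (b * f * h + c * d * i - c * e * h - a * f * i) = 0) : False := by
  obtain rfl : e = a := by linarith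
  have e5 : b * f * h + c * d * i - c * e * h - e * f * i = 0 :=
    (mul_eq_zero.1 e4).resolve_left hg.ne'
  have h1 : 0 ≤ (c * h - f * i) * (d * i - e * h) := by
    have : g * ((c * h - f * i) * (d * i - e * h)) = k * (d * i - e * h) ^ 2 := by
      linear_combination (d * i - e * h) * e3
    have h2 : 0 ≤ g * ((c * h - f * i) * (d * i - e * h)) := by rw [this]; positivity
    exact nonneg_of_mul_nonneg_right h2 hg |> fun h => by nlinarith [h]
  have h2 : d * h * (b * f * h + c * d * i - c * e * h - e * f * i) =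
      d * ((c * h - f * i) * (d * i - e * h)) + f * (d * i - e * h) ^ 2 + f * h ^ 2 * (k * h) := by
    linear_combination f * h ^ 2 * e2
  rw [e5, mul_zero] at h2
  have h3 : 0 < f * h ^ 2 * (k * h) := by positivity
  have h4 : 0 ≤ f * (d * i - e * h) ^ 2 := by positivity
  have h5 := mul_nonneg hd.le h1
  linarith

theorem not_sap : ¬ SAP (A 1) := by
  intro H
  obtain ⟨B, hB, hp⟩ := H (X ^ 6) (monic_X_pow 6) (natDegree_X_pow 6)
  have hz : ∀ u v, A 1 u v = 0 → B u v = 0 := fun u v h => sign_eq_zero_iff.1 ((hB u v).trans h)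
  have hpos : ∀ u v, A 1 u v = 1 → 0 < B u v := fun u v h => sign_eq_one_iff.1 ((hB u v).trans h)
  have hneg : ∀ u v, A 1 u v = -1 → 0 < -B u v := fun u v h =>
    neg_pos.2 (sign_eq_neg_one_iff.1 ((hB u v).trans h))
  have hM : B = M (B 0 0) (B 0 1) (-B 0 2) (-B 1 0) (-B 1 1) (B 1 2) (-B 2 3) (B 3 0) (B 3 1)
      (B 0 3) (B 4 4) (B 4 5) (-B 5 4) (-B 5 5) := by
    ext u v
    fin_cases u <;> fin_cases v <;> first | (simp [M]; done) | (simp only [M]; exact hz _ _ rfl)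
  have hev := fun x => eval_M (B 0 0) (B 0 1) (-B 0 2) (-B 1 0) (-B 1 1) (B 1 2) (-B 2 3) (B 3 0)
    (B 3 1) (B 0 3) (B 4 4) (B 4 5) (-B 5 4) (-B 5 5) x
  rw [← hM, hp] at hev
  simp only [eval_pow, eval_X] at hev
  have key : ∀ E1 E2 E3 E4 t δ : ℝ, (∀ x : ℝ, x ^ 6 =
      (x ^ 4 - E1 * x ^ 3 + E2 * x ^ 2 - E3 * x + E4) * (x ^ 2 - t * x + δ)) →
      E1 = 0 ∧ E2 = 0 ∧ E3 = 0 ∧ E4 = 0 := by
    intro E1 E2 E3 E4 t δ h
    have k0 := h 0
    have k1 := h 1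
    have k2 := h (-1)
    have k3 := h 2
    have k4 := h (-2)
    have k5 := h 3
    have c0 : E4 * δ = 0 := by linarith
    have c1 : E4 * t + E3 * δ = 0 := by linarith
    have c2 : E2 * δ + E3 * t + E4 = 0 := by linarith
    have c3 : E1 * δ + E2 * t + E3 = 0 := by linarith
    have c4 : δ + E1 * t + E2 = 0 := by linarith
    have c5 : E1 + t = 0 := by linarith
    have hδ : δ = 0 := by
      by_contra hδ
      have h4 : E4 = 0 := (mul_eq_zero.1 c0).resolve_right hδ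
      have h3 : E3 = 0 := by
        rw [h4] at c1; exact (mul_eq_zero.1 (by linarith : E3 * δ = 0)).resolve_right hδ
      have h2 : E2 = 0 := by
        rw [h4, h3] at c2; exact (mul_eq_zero.1 (by linarith : E2 * δ = 0)).resolve_right hδ
      have h1 : E1 = 0 := by
        rw [h2, h3] at c3; exact (mul_eq_zero.1 (by linarith : E1 * δ = 0)).resolve_right hδ
      rw [h1, h2] at c4
      exact hδ (by linarith)
    subst hδ
    have ht : t = 0 := by
      have : t ^ 5 = 0 := by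
        linear_combination c1 - t * c2 + t ^ 2 * c3 - t ^ 3 * c4 + t ^ 4 * c5
      exact pow_eq_zero_iff (by norm_num) |>.1 this
    subst ht
    exact ⟨by linarith, by linarith, by linarith, by linarith⟩
  obtain ⟨e1, e2, e3, e4⟩ := key _ _ _ _ _ _ hev
  exact not_nil _ _ _ _ _ _ _ _ _ _ (hpos 0 0 rfl) (hpos 0 1 rfl) (hneg 0 2 rfl) (hneg 1 0 rfl)
    (hpos 1 2 rfl) (hneg 2 3 rfl) (hpos 3 0 rfl) (hpos 3 1 rfl) (hpos 0 3 rfl) e1 e2 e3 e4

theorem result : ∃ (n : ℕ) (P P' : Matrix (Fin n) (Fin n) SignType),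
    SAP P ∧ (∀ i j, P i j ≠ 0 → P' i j = P i j) ∧ ¬ SAP P' := by
  refine ⟨6, A 0, A 1, sap, ?_, not_sap⟩
  decide

end Pool.Agent.Results.MP_557f7f_co.Q1
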